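import Mathlib
import Pool.Agent.V11190.Bicycle4

open Set Filter Topology
open Pool.Agent.V11190.Bicycle

/-! MP_08099c_gt, Q1: the hyperbolic-to-elliptic transition of the bicycle monodromy of a simple
strictly convex closed front track. -/

namespace Pool.Agent.Results.MP_08099c_gt.TransitionLength

/-- `Γ` is a parametrisation with period `T` of a simple strictly convex closed front track: `Γ` is
`C²` and regular, `T`-periodic, injective on `[0, T)`, and its image is the boundary of a compact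
strictly convex region. -/
def IsFrontTrack (Γ : ℝ → ℂ) (T : ℝ) : Prop :=
  0 < T ∧ ContDiff ℝ 2 Γ ∧ (∀ t, Γ (t + T) = Γ t) ∧ (∀ t, deriv Γ t ≠ 0) ∧ InjOn Γ (Ico 0 T) ∧
    ∃ K : Set ℂ, IsCompact K ∧ StrictConvex ℝ K ∧ frontier K = range Γ

/-- `θ` solves on `[0, T]` the no-skid equation `ℓ θ' = Γ' · (- sin θ, cos θ)` for the bicycle
length `ℓ`; the rear track is `Γ(t) - ℓ (cos θ(t), sin θ(t))`. -/
def IsSteering (Γ : ℝ → ℂ) (T l : ℝ) (θ : ℝ → ℝ) : Prop :=
  ∀ t ∈ Icc 0 T, HasDerivWithinAt θ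
    (((deriv Γ t).re * (-Real.sin (θ t)) + (deriv Γ t).im * Real.cos (θ t)) / l) (Icc 0 T) t

/-- `M ∈ SL(2, ℝ)` is a lift of the monodromy `θ(0) ↦ θ(T)`: the angle `θ` of the circle is
identified with the point `[cos (θ/2) : sin (θ/2)]` of the projective line, every initial angle
occurs, and `M` maps the point of `θ(0)` to the point of `θ(T)` for every solution `θ`. -/
def IsLift (Γ : ℝ → ℂ) (T l : ℝ) (M : Matrix (Fin 2) (Fin 2) ℝ) : Prop :=
  M.det = 1 ∧ (∀ a : ℝ, ∃ θ : ℝ → ℝ, θ 0 = a ∧ IsSteering Γ T l θ) ∧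
    ∀ θ : ℝ → ℝ, IsSteering Γ T l θ → ∃ c : ℝ, c ≠ 0 ∧
      M.mulVec ![Real.cos (θ 0 / 2), Real.sin (θ 0 / 2)] =
        c • ![Real.cos (θ T / 2), Real.sin (θ T / 2)]

/-- The monodromy is hyperbolic: a lift exists and every lift has `|tr M| > 2`. -/
def Hyperbolic (Γ : ℝ → ℂ) (T l : ℝ) : Prop :=
  (∃ M, IsLift Γ T l M) ∧ ∀ M, IsLift Γ T l M → 2 < |M.trace|

/-- The monodromy is elliptic: a lift exists and every lift has `|tr M| < 2`. -/
def Elliptic (Γ : ℝ → ℂ) (T l : ℝ) : Prop :=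
  (∃ M, IsLift Γ T l M) ∧ ∀ M, IsLift Γ T l M → |M.trace| < 2

lemma steering_iff {Γ : ℝ → ℂ} {T l : ℝ} {θ : ℝ → ℝ} :
    IsSteering Γ T l θ ↔
      IsSol (1 / l) T (fun t => (deriv Γ t).re) (fun t => (deriv Γ t).im) θ := by
  have e : ∀ t, ((deriv Γ t).re * (-Real.sin (θ t)) + (deriv Γ t).im * Real.cos (θ t)) / l =
      1 / l * ((deriv Γ t).im * Real.cos (θ t) - (deriv Γ t).re * Real.sin (θ t)) := by
    intro t; ring
  unfold IsSteering IsSol
  simp only [e]

lemma lift_iff {Γ : ℝ → ℂ} {T l : ℝ} {M : Matrix (Fin 2) (Fin 2) ℝ} (hT : 0 < T) (hl : 0 < l)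
    (hc : Continuous (deriv Γ)) :
    IsLift Γ T l M ↔
      IsMonodromy (1 / l) T (fun t => (deriv Γ t).re) (fun t => (deriv Γ t).im) M := by
  constructor
  · rintro ⟨h1, -, h3⟩
    exact ⟨h1, fun θ hθ => h3 θ (steering_iff.2 hθ)⟩
  · rintro ⟨h1, h3⟩
    refine ⟨h1, fun a => ?_, fun θ hθ => h3 θ (steering_iff.1 hθ)⟩
    obtain ⟨θ, h0, hθ⟩ := exists_sol hT (Complex.continuous_re.comp hc)
      (Complex.continuous_im.comp hc) (one_div_pos.2 hl) a
    exact ⟨θ, h0, steering_iff.2 hθ⟩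

/-- Change of the reflected curve. -/
lemma deriv_conj (Γ : ℝ → ℂ) (t : ℝ) :
    deriv (fun t => (starRingEnd ℂ) (Γ t)) t = (starRingEnd ℂ) (deriv Γ t) := by
  exact (deriv.star (f := Γ) (x := t)).trans rfl

lemma mirror {Γ : ℝ → ℂ} {T : ℝ} {K : Set ℂ} (h : IsConvexTrack Γ T K)
    (ho : NegOriented Γ K) :
    IsConvexTrack (fun t => (starRingEnd ℂ) (Γ t)) T (Complex.conjCLE '' K) ∧
      PosOriented (fun t => (starRingEnd ℂ) (Γ t)) (Complex.conjCLE '' K) := by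
  constructor
  · refine ⟨h.period_pos, ?_, ?_, ?_, ?_, ?_, ?_, ?_⟩
    · exact Complex.conjCLE.contDiff.comp h.smooth
    · intro t; simp only [h.periodic t]
    · intro t ht
      rw [deriv_conj] at ht
      exact h.regular t (by simpa using ht)
    · intro a ha b hb hab
      exact h.simple ha hb ((starRingEnd ℂ).injective hab)
    · exact h.compact.image Complex.conjCLE.continuous
    · exact h.strict.is_linear_image Complex.conjCLE.toLinearEquiv.toLinearMap.isLinear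
        (Complex.conjCLE.toHomeomorph.isOpenMap)
    · have := Complex.conjCLE.toHomeomorph.image_frontier K
      have h2 : Complex.conjCLE '' (frontier K) = frontier (Complex.conjCLE '' K) := this
      rw [← h2, h.boundary, ← range_comp]
      rfl
  · intro t p hp
    have h1 : Complex.conjCLE '' (interior K) = interior (Complex.conjCLE '' K) :=
      Complex.conjCLE.toHomeomorph.image_interior K
    rw [← h1] at hp
    obtain ⟨q, hq, rfl⟩ := hp
    have h2 := ho t q hq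
    rw [deriv_conj]
    simp only [cr, Complex.conjCLE_apply, Complex.conj_re, Complex.conj_im, Complex.sub_re,
      Complex.sub_im] at h2 ⊢
    linarith

/-- Conjugation of a matrix with `diag(1, -1)`. -/
def flip (M : Matrix (Fin 2) (Fin 2) ℝ) : Matrix (Fin 2) (Fin 2) ℝ :=
  !![M 0 0, -M 0 1; -M 1 0, M 1 1]

lemma flip_flip (M : Matrix (Fin 2) (Fin 2) ℝ) : flip (flip M) = M := by
  ext i j; fin_cases i <;> fin_cases j <;> simp [flip]

lemma trace_flip (M : Matrix (Fin 2) (Fin 2) ℝ) : (flip M).trace = M.trace := by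
  simp [flip, Matrix.trace_fin_two]

lemma steering_neg {Γ : ℝ → ℂ} {T l : ℝ} {θ : ℝ → ℝ} (h : IsSteering Γ T l θ) :
    IsSteering (fun t => (starRingEnd ℂ) (Γ t)) T l (fun t => -θ t) := by
  intro t ht
  refine (h t ht).neg.congr_deriv ?_
  rw [deriv_conj]
  simp only [Complex.conj_re, Complex.conj_im, Real.sin_neg, Real.cos_neg]
  ring

lemma conj_conj (Γ : ℝ → ℂ) :
    (fun t => (starRingEnd ℂ) ((fun t => (starRingEnd ℂ) (Γ t)) t)) = Γ := by
  ext t; simp

lemma lift_flip {Γ : ℝ → ℂ} {T l : ℝ} {M : Matrix (Fin 2) (Fin 2) ℝ} (h : IsLift Γ T l M) :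
    IsLift (fun t => (starRingEnd ℂ) (Γ t)) T l (flip M) := by
  obtain ⟨h1, h2, h3⟩ := h
  refine ⟨?_, ?_, ?_⟩
  · rw [Matrix.det_fin_two] at h1
    simp only [flip, Matrix.det_fin_two_of]
    linarith
  · intro a
    obtain ⟨θ, h0, hθ⟩ := h2 (-a)
    exact ⟨_, by simp [h0], steering_neg hθ⟩
  · intro θ hθ
    have h4 := steering_neg hθ
    rw [conj_conj] at h4
    obtain ⟨c, hc, he⟩ := h3 _ h4
    refine ⟨c, hc, ?_⟩
    have e0 := congrFun he 0
    have e1 := congrFun he 1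
    have a0 : (fun t => -θ t) 0 / 2 = -(θ 0 / 2) := by simp only; ring
    have aT : (fun t => -θ t) T / 2 = -(θ T / 2) := by simp only; ring
    rw [a0, aT] at e0 e1
    simp [Matrix.mulVec, dotProduct, Fin.sum_univ_two, Real.cos_neg, Real.sin_neg] at e0 e1
    ext i
    fin_cases i
    · simp [flip, Matrix.mulVec, dotProduct, Fin.sum_univ_two]
      linarith
    · simp [flip, Matrix.mulVec, dotProduct, Fin.sum_univ_two]
      linarith

lemma lift_flip_iff {Γ : ℝ → ℂ} {T l : ℝ} {M : Matrix (Fin 2) (Fin 2) ℝ} :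
    IsLift (fun t => (starRingEnd ℂ) (Γ t)) T l M ↔ IsLift Γ T l (flip M) := by
  constructor
  · intro h
    have := lift_flip h
    rwa [conj_conj] at this
  · intro h
    have := lift_flip h
    rwa [flip_flip] at this

lemma hyperbolic_conj {Γ : ℝ → ℂ} {T l : ℝ}
    (h : Hyperbolic (fun t => (starRingEnd ℂ) (Γ t)) T l) : Hyperbolic Γ T l := by
  obtain ⟨⟨M, hM⟩, h2⟩ := h
  refine ⟨⟨flip M, lift_flip_iff.1 hM⟩, fun N hN => ?_⟩
  have := h2 (flip N) (lift_flip hN)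
  rwa [trace_flip] at this

lemma elliptic_conj {Γ : ℝ → ℂ} {T l : ℝ}
    (h : Elliptic (fun t => (starRingEnd ℂ) (Γ t)) T l) : Elliptic Γ T l := by
  obtain ⟨⟨M, hM⟩, h2⟩ := h
  refine ⟨⟨flip M, lift_flip_iff.1 hM⟩, fun N hN => ?_⟩
  have := h2 (flip N) (lift_flip hN)
  rwa [trace_flip] at this

lemma pos_case {Γ : ℝ → ℂ} {T : ℝ} {K : Set ℂ} (h : IsConvexTrack Γ T K)
    (ho : PosOriented Γ K) : ∃ l0 : ℝ, 0 < l0 ∧ (∀ l, 0 < l → l < l0 → Hyperbolic Γ T l) ∧
      ∀ l, l0 < l → Elliptic Γ T l := by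
  obtain ⟨v, φ, φ', tr⟩ := h.toTrack ho
  obtain ⟨s0, hs0, hH, hE⟩ := transition tr
  have hT := h.period_pos
  have hc := h.contDeriv
  refine ⟨1 / s0, one_div_pos.2 hs0, fun l hl hlt => ?_, fun l hlt => ?_⟩
  · have h1 : s0 < 1 / l := by
      rw [lt_div_iff₀ hl]
      rw [lt_div_iff₀ hs0] at hlt
      linarith
    obtain ⟨⟨M, hM⟩, h2⟩ := hH _ h1
    exact ⟨⟨M, (lift_iff hT hl hc).2 hM⟩, fun N hN => h2 N ((lift_iff hT hl hc).1 hN)⟩
  · have hl : 0 < l := (one_div_pos.2 hs0).trans hlt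
    have h1 : 1 / l < s0 := by
      rw [div_lt_iff₀ hl]
      rw [div_lt_iff₀ hs0] at hlt
      linarith
    obtain ⟨⟨M, hM⟩, h2⟩ := hE _ (one_div_pos.2 hl) h1
    exact ⟨⟨M, (lift_iff hT hl hc).2 hM⟩, fun N hN => h2 N ((lift_iff hT hl hc).1 hN)⟩

/-- **Hyperbolic-to-elliptic transition.** Every simple strictly convex closed front track has a
length `ℓ₀ > 0` such that its bicycle monodromy is hyperbolic for every `ℓ < ℓ₀` and elliptic for
every `ℓ > ℓ₀`. -/
theorem result (Γ : ℝ → ℂ) (T : ℝ) (hΓ : IsFrontTrack Γ T) :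
    ∃ l0 : ℝ, 0 < l0 ∧ (∀ l, 0 < l → l < l0 → Hyperbolic Γ T l) ∧
      ∀ l, l0 < l → Elliptic Γ T l := by
  obtain ⟨hT, hs, hp, hr, hi, K, hK, hKc, hKf⟩ := hΓ
  have h : IsConvexTrack Γ T K := ⟨hT, hs, hp, hr, hi, hK, hKc, hKf⟩
  rcases h.oriented with ho | ho
  · exact pos_case h ho
  · obtain ⟨h1, h2⟩ := mirror h ho
    obtain ⟨l0, hl0, hH, hE⟩ := pos_case h1 h2
    exact ⟨l0, hl0, fun l hl hlt => hyperbolic_conj (hH l hl hlt),
      fun l hlt => elliptic_conj (hE l hlt)⟩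

end Pool.Agent.Results.MP_08099c_gt.TransitionLength
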